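import Pool.Agent.Helper4.It.Goals
import Pool.Agent.Helper85.Comp.P1

/-! Packet T1: the twisted face sum. -/

namespace Mono

namespace It

open Finset Filter Topology Mono.Comp

variable {n : ℕ}

namespace T1

open Classical in
theorem ZrealT_eq (e : ℕ) (w : Fin n → ℝ) (A : Finset (Fin n → ℤ)) (T : Fan n) (s : ℝ) :
    ZrealT e w A T s = ∑ φ ∈ cfaces A,
      if e ∣ latDist φ then cT e (dimF φ) s * (nvol φ : ℝ) * P1.innR w A T s φ else 0 := by
  unfold ZrealT
  rw [Finset.sum_filter]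
  refine Finset.sum_congr rfl fun φ _ => ?_
  rfl

end T1

/-- Packet T1. -/
theorem faceSumT (h : NvolSum) : FaceSumT := by
  intro n e w A Z Φ T hT s
  classical
  rw [T1.ZrealT_eq]
  have h1 : ∀ τ ∈ Φ.faces.filter (fun τ => τ.Nonempty ∧ τ ⊆ A),
      (if e ∣ latDist τ then cT e (τ.card - 1) s * (vol τ : ℝ) * Jsum A Z T τ s w else 0) =
      if τ.card = dimF (car A τ) + 1 then
        (if e ∣ latDist (car A τ) then
          cT e (dimF (car A τ)) s * (vol τ : ℝ) * P1.innR w A T s (car A τ) else 0) else 0 := by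
    intro τ hτ
    have hc : CSimp A Φ τ := csimp_iff.1 (Finset.mem_filter.1 hτ)
    rw [P1.jsum_eqR w hT hc]
    by_cases h2 : τ.card = dimF (car A τ) + 1
    · obtain ⟨h3, h4, h5⟩ := car_spec hT hc
      have h7 : τ.card ≤ dimF τ + 1 :=
        card_le_dimF (Fan.IsFace.indep Φ hc.1) hc.2.1 (Finset.Subset.refl τ)
      rw [if_pos h2, if_pos h2, h2, Nat.add_sub_cancel, latDist_eq hc.2.1 h4 (by omega)]
    · rw [if_neg h2, if_neg h2, mul_zero, ite_self]
  rw [Finset.sum_congr rfl h1,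
    ← Finset.sum_filter (s := Φ.faces.filter (fun τ => τ.Nonempty ∧ τ ⊆ A))
      (p := fun τ => τ.card = dimF (car A τ) + 1)]
  rw [regroup hT _ (fun τ => ?_) (fun φ τ => if e ∣ latDist φ then
    cT e (dimF φ) s * (vol τ : ℝ) * P1.innR w A T s φ else 0)]
  · refine Finset.sum_congr rfl fun φ hφ => ?_
    split_ifs with h8
    · rw [h n A Z Φ hT φ hφ, ← Finset.sum_mul, ← Finset.mul_sum]
      push_cast
      rfl
    · rw [Finset.sum_const_zero]
  · rw [Finset.mem_filter, Finset.mem_filter, csimp_iff]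

end It

end Mono
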